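import Pool.Agent.helper21.UB.Spec

/-!
# Project ub, module RD: the bound for sums of three squares gives Q1 for dense sets
-/

set_option autoImplicit false

open Quaternion

namespace Pool.Agent.helper21.UB

theorem RD_pairs (hfin : ∀ k : ℕ, Finite {v : Fin 3 → ℤ // ∑ i, v i ^ 2 = (k : ℤ)})
    (S : Finset (Fin 3 → ℤ)) (k : ℕ) :
    ((S ×ˢ S).filter (fun p => ∑ i, (p.1 i - p.2 i) ^ 2 = (k : ℤ))).card ≤ S.card * r3 k := by
  classical
  rw [Finset.card_filter, Finset.sum_product]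
  calc (∑ x ∈ S, ∑ y ∈ S, if ∑ i, ((x, y).1 i - (x, y).2 i) ^ 2 = (k : ℤ) then 1 else 0)
      ≤ ∑ _x ∈ S, r3 k := by
        apply Finset.sum_le_sum
        intro x _
        rw [← Finset.card_filter]
        haveI := hfin k
        unfold r3
        rw [← Fintype.card_coe, ← Nat.card_eq_fintype_card]
        refine Nat.card_le_card_of_injective
          (fun y => ⟨fun i => x i - y.1 i, by
            have := (Finset.mem_filter.mp y.2).2
            exact this⟩) ?_
        intro y z hyz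
        apply Subtype.ext
        funext i
        have h1 := congrArg Subtype.val hyz
        have h2 := congrFun h1 i
        simp only at h2
        linarith
    _ = S.card * r3 k := by simp

theorem RD_loglog (n : ℕ) (hn : 16 ≤ n) : 1 ≤ Real.log (Real.log (n : ℝ)) := by
  have h16 : Real.log 16 = 4 * Real.log 2 := by
    rw [show (16:ℝ) = 2 ^ 4 by norm_num, Real.log_pow]; norm_num
  have h2 := Real.log_two_gt_d9
  have h3 := Real.exp_one_lt_d9
  have h4 : Real.log 16 ≤ Real.log (n : ℝ) :=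
    Real.log_le_log (by norm_num) (by exact_mod_cast hn)
  have h5 : Real.exp 1 ≤ Real.log (n : ℝ) := by linarith
  have h6 : 0 < Real.log (n : ℝ) := lt_of_lt_of_le (Real.exp_pos 1) h5
  exact (Real.le_log_iff_exp_le h6).mpr h5

theorem RD_L (L : ℕ) (K : ℝ) (n : ℕ) (hK : 1 ≤ K) (h : (L : ℝ) ^ 3 ≤ K * n) :
    (L : ℝ) ≤ K ^ ((1:ℝ) / 3) * (n : ℝ) ^ ((1:ℝ) / 3) := by
  have h1 : (L : ℝ) = ((L : ℝ) ^ 3) ^ ((1:ℝ) / 3) := by
    rw [← Real.rpow_natCast, ← Real.rpow_mul (by positivity)]
    norm_num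
  rw [h1, ← Real.mul_rpow (by linarith) (by positivity)]
  exact Real.rpow_le_rpow (by positivity) h (by norm_num)

theorem RD (hFIN : FIN_stmt) : RD_stmt := by
  classical
  obtain ⟨hfin, htriv⟩ := hFIN
  rintro ⟨C0, hC0⟩ K0
  set C : ℝ := max C0 1 with hC
  set K : ℝ := max K0 1 with hK
  have hC1 : 1 ≤ C := le_max_right _ _
  have hK1 : 1 ≤ K := le_max_right _ _
  refine ⟨125 + 4 * C * K ^ ((1:ℝ) / 3), max 16 ⌈3 * K⌉₊, ?_⟩
  intro S b L k hS hL hN
  set n : ℕ := S.card with hn
  have hn16 : 16 ≤ n := le_trans (le_max_left _ _) hN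
  have hn3K : 3 * K ≤ n := by
    have h1 : ⌈3 * K⌉₊ ≤ n := le_trans (le_max_right _ _) hN
    exact le_trans (Nat.le_ceil _) (by exact_mod_cast h1)
  have hll := RD_loglog n hn16
  have hnR : (16:ℝ) ≤ n := by exact_mod_cast hn16
  have hn0 : (0:ℝ) < n := by linarith
  have hlog0 : 0 < Real.log (n : ℝ) := Real.log_pos (by linarith)
  have hnp : (n : ℝ) ^ ((4:ℝ) / 3) = (n : ℝ) * (n : ℝ) ^ ((1:ℝ) / 3) := by
    rw [show ((4:ℝ) / 3) = 1 + 1 / 3 by norm_num, Real.rpow_add hn0, Real.rpow_one]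
  have hp1 : 1 ≤ (n : ℝ) ^ ((1:ℝ) / 3) := Real.one_le_rpow (by linarith) (by norm_num)
  have hKp : 1 ≤ K ^ ((1:ℝ) / 3) := Real.one_le_rpow hK1 (by norm_num)
  have hLK : (L : ℝ) ^ 3 ≤ K * n := le_trans hL (by
    apply mul_le_mul_of_nonneg_right (le_max_left _ _) hn0.le)
  have hLb := RD_L L K n hK1 hLK
  by_cases hemp : ((S ×ˢ S).filter (fun p => ∑ i, (p.1 i - p.2 i) ^ 2 = (k : ℤ))).card = 0
  · rw [hemp]
    have : 0 ≤ (125 + 4 * C * K ^ ((1:ℝ) / 3)) * (n : ℝ) ^ ((4:ℝ) / 3) *
        Real.log (Real.log (n : ℝ)) := by positivity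
    simpa using this
  · have hne : ((S ×ˢ S).filter (fun p => ∑ i, (p.1 i - p.2 i) ^ 2 = (k : ℤ))).Nonempty := by
      rw [Finset.nonempty_iff_ne_empty]
      intro h
      exact hemp (by rw [h]; rfl)
    obtain ⟨p, hp⟩ := hne
    rw [Finset.mem_filter, Finset.mem_product] at hp
    obtain ⟨⟨hp1', hp2'⟩, hpk⟩ := hp
    have hk3 : (k : ℤ) ≤ 3 * (L : ℤ) ^ 2 := by
      rw [← hpk, Fin.sum_univ_three]
      have hi : ∀ i, (p.1 i - p.2 i) ^ 2 ≤ (L : ℤ) ^ 2 := by
        intro i
        have h1 := hS _ hp1' i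
        have h2 := hS _ hp2' i
        apply sq_le_sq'
        · linarith [h1.1, h2.2]
        · linarith [h1.2, h2.1]
      linarith [hi 0, hi 1, hi 2]
    have hk3R : (k : ℝ) ≤ 3 * (L : ℝ) ^ 2 := by exact_mod_cast hk3
    have hcount := RD_pairs hfin S k
    have hcountR : (((S ×ˢ S).filter (fun p => ∑ i, (p.1 i - p.2 i) ^ 2 = (k : ℤ))).card : ℝ)
        ≤ (n : ℝ) * (r3 k : ℝ) := by exact_mod_cast hcount
    refine le_trans hcountR ?_
    rw [hnp]
    -- bound of r3
    have hr : (r3 k : ℝ) ≤ (125 + 4 * C * K ^ ((1:ℝ) / 3)) * (n : ℝ) ^ ((1:ℝ) / 3) *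
        Real.log (Real.log (n : ℝ)) := by
      have hA : 1 ≤ (n : ℝ) ^ ((1:ℝ) / 3) * Real.log (Real.log (n : ℝ)) := by nlinarith
      rcases Nat.lt_or_ge k 3 with hk | hk
      · have h1 : r3 k ≤ 125 := by
          refine le_trans (htriv k) ?_
          have : 2 * k + 1 ≤ 5 := by omega
          calc (2 * k + 1) ^ 3 ≤ 5 ^ 3 := Nat.pow_le_pow_left this 3
            _ = 125 := by norm_num
        have h1R : (r3 k : ℝ) ≤ 125 := by exact_mod_cast h1
        have h2 : 0 ≤ 4 * C * K ^ ((1:ℝ) / 3) := by positivity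
        nlinarith
      · have h1 := hC0 k hk
        have hkR : (3:ℝ) ≤ k := by exact_mod_cast hk
        have hL1 : 1 ≤ L := by
          rcases Nat.eq_zero_or_pos L with h | h
          · exfalso
            rw [h] at hk3R
            norm_num at hk3R
            linarith
          · exact h
        have hL1R : (1:ℝ) ≤ L := by exact_mod_cast hL1
        have hkn : (k : ℝ) ≤ (n : ℝ) ^ 2 := by
          have h2 : (L : ℝ) ^ 2 ≤ (L : ℝ) ^ 3 := pow_le_pow_right₀ hL1R (by norm_num)
          nlinarith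
        have he : Real.exp 1 < 3 := by
          have := Real.exp_one_lt_d9
          linarith
        have hlk : 1 ≤ Real.log (k : ℝ) := by
          rw [Real.le_log_iff_exp_le (by linarith)]
          linarith
        have hllk0 : 0 ≤ Real.log (Real.log (k : ℝ)) := Real.log_nonneg hlk
        have hllk : Real.log (Real.log (k : ℝ)) ≤ 2 * Real.log (Real.log (n : ℝ)) := by
          have h3 : Real.log (k : ℝ) ≤ 2 * Real.log (n : ℝ) := by
            have h4 := Real.log_le_log (by linarith) hkn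
            rw [Real.log_pow] at h4
            simpa using h4
          have h5 : Real.log (Real.log (k : ℝ)) ≤ Real.log (2 * Real.log (n : ℝ)) :=
            Real.log_le_log (by linarith) h3
          rw [Real.log_mul (by norm_num) (by linarith)] at h5
          have h6 := Real.log_two_lt_d9
          linarith
        have hsq : Real.sqrt k ≤ 2 * (L : ℝ) := by
          rw [Real.sqrt_le_left (by linarith)]
          nlinarith
        have hs0 : 0 ≤ Real.sqrt (k : ℝ) := Real.sqrt_nonneg _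
        have h7 : (r3 k : ℝ) ≤ C * Real.sqrt k * Real.log (Real.log k) := by
          refine le_trans h1 ?_
          apply mul_le_mul_of_nonneg_right _ hllk0
          exact mul_le_mul_of_nonneg_right (le_max_left _ _) hs0
        have h8 : C * Real.sqrt k * Real.log (Real.log k) ≤
            C * (2 * (K ^ ((1:ℝ) / 3) * (n : ℝ) ^ ((1:ℝ) / 3))) *
              (2 * Real.log (Real.log (n : ℝ))) := by
          apply mul_le_mul _ hllk hllk0 (by positivity)
          apply mul_le_mul_of_nonneg_left _ (by linarith)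
          linarith
        have h9 : C * (2 * (K ^ ((1:ℝ) / 3) * (n : ℝ) ^ ((1:ℝ) / 3))) *
              (2 * Real.log (Real.log (n : ℝ))) =
            4 * C * K ^ ((1:ℝ) / 3) * ((n : ℝ) ^ ((1:ℝ) / 3) * Real.log (Real.log (n : ℝ))) := by
          ring
        have h10 : (125 + 4 * C * K ^ ((1:ℝ) / 3)) * (n : ℝ) ^ ((1:ℝ) / 3) *
            Real.log (Real.log (n : ℝ)) =
            125 * ((n : ℝ) ^ ((1:ℝ) / 3) * Real.log (Real.log (n : ℝ))) +
            4 * C * K ^ ((1:ℝ) / 3) * ((n : ℝ) ^ ((1:ℝ) / 3) * Real.log (Real.log (n : ℝ))) := by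
          ring
        rw [h10]
        linarith
    calc (n : ℝ) * (r3 k : ℝ) ≤ (n : ℝ) * ((125 + 4 * C * K ^ ((1:ℝ) / 3)) *
          (n : ℝ) ^ ((1:ℝ) / 3) * Real.log (Real.log (n : ℝ))) :=
          mul_le_mul_of_nonneg_left hr hn0.le
      _ = (125 + 4 * C * K ^ ((1:ℝ) / 3)) * ((n : ℝ) * (n : ℝ) ^ ((1:ℝ) / 3)) *
          Real.log (Real.log (n : ℝ)) := by ring

end Pool.Agent.helper21.UB
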